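import Pool.Agent.H43.PJ.M40

/-!
Almost every integer `n` is the midpoint of two products of exactly two primes at distance at most
`exp((log n)^θ)`, for every `θ > 2/3`.
-/

set_option autoImplicit false

namespace Pool.Agent.Results.MP_967f73_nt.Midpoints

/-- The integers `x` with `|x| ≤ Y`, `n - x = p₁ q₁`, `n + x = p₂ q₂` for primes `p₁ < q₁`, `p₂`, `q₂` with
`Y ≤ p₁ ^ C` and `P < p₂ ≤ 2 P`. -/
def sols (C P n : ℕ) (Y : ℝ) : Set ℤ :=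
  {x | |(x : ℝ)| ≤ Y ∧ ∃ p₁ q₁ p₂ q₂ : ℕ, p₁.Prime ∧ q₁.Prime ∧ p₂.Prime ∧ q₂.Prime ∧
    Y ≤ (p₁ : ℝ) ^ C ∧ p₁ < q₁ ∧ P < p₂ ∧ p₂ ≤ 2 * P ∧ (n : ℤ) - x = p₁ * q₁ ∧ (n : ℤ) + x = p₂ * q₂}

/-- Let `2/3 < θ < 1` and let `A` be a natural number.  There are `C > 0` and `N₀` such that for all `N ≥ N₀`, all
`Y` with `exp((log N)^θ) ≤ Y ≤ N^(1/4)` and all `P` with `(log N)^C ≤ P ≤ Y^(1/C)`: all but at most
`N/(log N)^A` of the integers `n` in `(N, 2N]` have at least `Y/(C (log N)^2 log P)` integers `x`, `|x| ≤ Y`,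
with `n - x = p₁ q₁`, `n + x = p₂ q₂`. -/
theorem result : ∀ θ : ℝ, 2 / 3 < θ → θ < 1 → ∀ A : ℕ, ∃ C N₀ : ℕ, 0 < C ∧ ∀ (N P : ℕ) (Y : ℝ), N₀ ≤ N →
    Real.exp (Real.log N ^ θ) ≤ Y → Y ^ 4 ≤ N → Real.log N ^ C ≤ P → (P : ℝ) ^ C ≤ Y →
    (({n : ℕ | N < n ∧ n ≤ 2 * N ∧ ((sols C P n Y).ncard : ℝ) <
      Y / (C * Real.log N ^ 2 * Real.log P)} : Set ℕ).ncard : ℝ) ≤ N / Real.log N ^ A := by
  classical
  intro θ hθ hθ1 A
  obtain ⟨C, N₀, hC, h⟩ := Pool.Agent.H53.MIX.main_y θ hθ hθ1 A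
  refine ⟨C, N₀, hC, fun N P Y hN hY1 hY2 hP hPC => ?_⟩
  refine le_trans (le_of_eq ?_) (h N hN P Y hY1 hY2 hP hPC)
  congr 1
  rw [← Set.ncard_coe_finset]
  congr 1
  ext n
  simp only [Set.mem_setOf_eq, Finset.coe_filter, Finset.mem_Ioc, not_le]
  have key : ((sols C P n Y).ncard : ℝ) =
      (((Finset.Icc (-⌊Y⌋) ⌊Y⌋).filter (fun x : ℤ => ∃ p1 q1 p2 q2 : ℕ,
        p1.Prime ∧ q1.Prime ∧ p2.Prime ∧ q2.Prime ∧ Y ≤ (p1 : ℝ) ^ C ∧ p1 < q1 ∧ P < p2 ∧ p2 ≤ 2 * P ∧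
        (n : ℤ) - x = p1 * q1 ∧ (n : ℤ) + x = p2 * q2)).card : ℝ) := by
    rw [← Set.ncard_coe_finset]
    congr 2
    ext x
    simp only [sols, Set.mem_setOf_eq, Finset.coe_filter, Finset.mem_Icc]
    refine and_congr_left fun _ => ?_
    rw [abs_le]
    constructor
    · rintro ⟨h1, h2⟩
      refine ⟨?_, Int.le_floor.2 h2⟩
      rw [neg_le, Int.le_floor]
      push_cast
      linarith
    · rintro ⟨h1, h2⟩
      have h3 := Int.le_floor.1 (neg_le.1 h1)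
      push_cast at h3
      exact ⟨by linarith, Int.le_floor.1 h2⟩
  rw [key]
  tauto

end Pool.Agent.Results.MP_967f73_nt.Midpoints
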