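import Pool.Agent.H94.PG.H11.LQ.Fin6
import Pool.Agent.H94.PG.H78.PH.Analytic2
import Pool.Agent.H94.PG.M39
import Pool.Agent.H94.PG.M40
import Pool.Agent.H94.PG.M41

/-!
# Quantitative Goldbach problem for the parity of the number of prime factors, for all integers

`ArithmeticFunction.cardFactors` is `Ω`, the number of prime factors counted with multiplicity, and
`(-1) ^ Ω` is the Liouville function.  The theorem is about the number of representations of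
an integer `N` as a sum of two positive integers with prescribed parities of `Ω`: a pattern of parities is rare
if and only if the Liouville function is close to a real character of a modulus dividing `N`.
-/

namespace Pool.Agent.Results.MP_967f73_nt.ParityGoldbachLog

open Finset ArithmeticFunction
open Pool.Agent.H11.LQ
open Pool.Agent.H34PG (lam lam_val)

/-- The integers `a` with `0 < a < N` such that: `Ω a` has the parity of `i` and `Ω (N - a)` has the parity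
of `j`; `2 ^ Ω a ≤ K` and `2 ^ Ω (N - a) ≤ K`; neither `a` nor `N - a` is divisible by the square of an
integer `v > J`; all common prime factors of `a` and `N` are at most `K`; and `gcd (a, N) ≤ G`. -/
def reps (N i j : ℕ) (G K J : ℝ) : Set ℕ :=
  {a | 0 < a ∧ a < N ∧ cardFactors a % 2 = i % 2 ∧ cardFactors (N - a) % 2 = j % 2 ∧
    (2 : ℝ) ^ cardFactors a ≤ K ∧ (2 : ℝ) ^ cardFactors (N - a) ≤ K ∧
    (∀ v : ℕ, (v ^ 2 ∣ a ∨ v ^ 2 ∣ N - a) → (v : ℝ) ≤ J) ∧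
    (∀ p : ℕ, p.Prime → p ∣ a → p ∣ N → (p : ℝ) ≤ K) ∧ ((Nat.gcd a N : ℕ) : ℝ) ≤ G}

/-- There are at least `N / J` such integers: if `N ≥ 4` is even and `i`, `j` are odd; if `N ≥ 8` is even,
`N ≠ 10`, and `i`, `j` are arbitrary; if `N ≥ 3`, `N ≠ 5, 10`, and `i ≢ j` mod 2. -/
def Many (N i j : ℕ) (G K J : ℝ) : Prop :=
  ((4 ≤ N ∧ Even N ∧ i % 2 = 1 ∧ j % 2 = 1) ∨ (8 ≤ N ∧ Even N ∧ N ≠ 10) ∨
    (3 ≤ N ∧ N ≠ 5 ∧ N ≠ 10 ∧ i % 2 ≠ j % 2)) →
  (N : ℝ) ≤ J * ((reps N i j G K J).ncard : ℝ)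

/-- The integers `a` with `0 < a < N` such that `Ω a` has the parity of `i` and `Ω (N - a)` has the parity
of `j`. -/
def pairs (N i j : ℕ) : Set ℕ :=
  {a | 0 < a ∧ a < N ∧ cardFactors a % 2 = i % 2 ∧ cardFactors (N - a) % 2 = j % 2}

open Classical in
/-- For a Dirichlet character `χ` mod `q`: the sum of `1 / p ^ (1 + v)` over all primes `p ≤ N` with
`χ p ≠ -1`, where `v` is the exponent of `p` in `N / q`. -/
noncomputable def D (N : ℕ) {q : ℕ} (χ : DirichletCharacter ℂ q) : ℝ :=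
  ∑ p ∈ (Icc 1 N).filter (fun p : ℕ => p.Prime ∧ χ (p : ZMod q) ≠ -1),
    1 / (p : ℝ) ^ (1 + (N / q).factorization p)

/-- the conditions on `a` -/
private def Good (N a : ℕ) (G K J : ℝ) : Prop :=
  Fine N K a ∧ (∀ v : ℕ, (v ^ 2 ∣ a ∨ v ^ 2 ∣ N - a) → (v : ℝ) ≤ J) ∧
    ((Nat.gcd a N : ℕ) : ℝ) ≤ G

private theorem reps_finite (N i j : ℕ) (G K J : ℝ) : (reps N i j G K J).Finite :=
  (Set.finite_lt_nat N).subset fun _ ha => ha.2.1

private theorem key {N i j : ℕ} {G K J : ℝ} (hJ : 1 ≤ J) (h1 : ∃ a, Rep N i j a)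
    (h : ((N : ℝ) ≤ K ∧ (N : ℝ) ≤ G ∧ (N : ℝ) ≤ J) ∨ ∃ T ⊆ pat N ((-1) ^ i) ((-1) ^ j),
      (N : ℝ) ≤ J * (T.card : ℝ) ∧ ∀ a ∈ T, Good N a G K J) :
    (N : ℝ) ≤ J * ((reps N i j G K J).ncard : ℝ) := by
  have hfin := reps_finite N i j G K J
  rcases h with ⟨h2, h3, h4'⟩ | ⟨T, hT, h2, h3⟩
  · obtain ⟨a, ha0, haN, hai, haj⟩ := h1
    have hf : Fine N K a := Fine.of_le ha0 haN h2
    have hf' : Fine N J a := Fine.of_le ha0 haN h4'
    have hg : ((Nat.gcd a N : ℕ) : ℝ) ≤ G := by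
      have h4 : Nat.gcd a N ≤ N := Nat.gcd_le_right _ (by omega)
      have h5 : ((Nat.gcd a N : ℕ) : ℝ) ≤ N := by exact_mod_cast h4
      linarith
    have hmem : a ∈ reps N i j G K J :=
      ⟨ha0, haN, hai, haj, hf.few, hf.few', hf'.sq, hf.com, hg⟩
    have hcard : 1 ≤ (reps N i j G K J).ncard := by
      rw [Nat.one_le_iff_ne_zero, Ne, Set.ncard_eq_zero hfin]
      exact Set.Nonempty.ne_empty ⟨a, hmem⟩
    have hcard' : (1 : ℝ) ≤ ((reps N i j G K J).ncard : ℝ) := by exact_mod_cast hcard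
    calc (N : ℝ) ≤ J * 1 := by linarith
      _ ≤ _ := mul_le_mul_of_nonneg_left hcard' (by linarith)
  · have hsub : (T : Set ℕ) ⊆ reps N i j G K J := by
      intro a ha
      have h4 := hT (Finset.mem_coe.mp ha)
      obtain ⟨hf, hv, hg⟩ := h3 a (Finset.mem_coe.mp ha)
      unfold pat at h4
      rw [Finset.mem_filter, Finset.mem_range, lam_iff, lam_iff] at h4
      exact ⟨h4.2.1, h4.1, h4.2.2.1, h4.2.2.2, hf.few, hf.few', hv, hf.com, hg⟩
    have h8 := Set.ncard_le_ncard hsub hfin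
    rw [Set.ncard_coe_finset] at h8
    have h9 : (T.card : ℝ) ≤ ((reps N i j G K J).ncard : ℝ) := by exact_mod_cast h8
    exact h2.trans (mul_le_mul_of_nonneg_left h9 (by linarith))

private theorem many {N N0 i j : ℕ} {G K J : ℝ} (hJ : 3 ≤ N → 1 ≤ J)
    (hs : 3 ≤ N → N < N0 → (N : ℝ) ≤ K ∧ (N : ℝ) ≤ G ∧ (N : ℝ) ≤ J)
    (hl : 3 ≤ N → N0 ≤ N → (Even N ∨ i % 2 ≠ j % 2) →
      ∃ T ⊆ pat N ((-1) ^ i) ((-1) ^ j), (N : ℝ) ≤ J * (T.card : ℝ) ∧
        ∀ a ∈ T, Good N a G K J) : Many N i j G K J := by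
  have main : 3 ≤ N → (Even N ∨ i % 2 ≠ j % 2) → (∃ a, Rep N i j a) →
      (N : ℝ) ≤ J * ((reps N i j G K J).ncard : ℝ) := by
    intro h3 hij h1
    refine key (hJ h3) h1 ?_
    rcases Nat.lt_or_ge N N0 with h | h
    · exact Or.inl (hs h3 h)
    · exact Or.inr (hl h3 h hij)
  rintro (⟨h4, he, hi, hj⟩ | ⟨h8, he, h10⟩ | ⟨h3, h5, h10, hij⟩)
  · refine main (by omega) (Or.inl he) ?_
    obtain ⟨a, h1, h2, h3, h5⟩ := one_odd h4 he
    exact ⟨a, h1, h2, by omega, by omega⟩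
  · exact main (by omega) (Or.inl he) (one_all h8 he h10)
  · exact main h3 (Or.inr hij) (one_mixed h3 h5 h10 hij)

private theorem log_ge {N : ℕ} (hN : 3 ≤ N) : 1 ≤ Real.log N := by
  have h3 : (3 : ℝ) ≤ N := by exact_mod_cast hN
  rw [Real.le_log_iff_exp_le (by linarith)]
  have := Real.exp_one_lt_d9
  linarith

/-- `K ≥ 3` implies `K ≤ exp (2 (log K) ^ 2)` -/
private theorem le_G {K : ℝ} (hK : 3 ≤ K) : K ≤ Real.exp (2 * Real.log K ^ 2) := by
  have h1 : 1 ≤ Real.log K := by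
    rw [Real.le_log_iff_exp_le (by linarith)]
    have := Real.exp_one_lt_d9
    linarith
  calc K = Real.exp (Real.log K) := (Real.exp_log (by linarith)).symm
    _ ≤ _ := Real.exp_le_exp.mpr (by nlinarith)

private theorem sign_eq {i j : ℕ} (h : (-1 : ℤ) ^ i = (-1) ^ j) : i % 2 = j % 2 := by
  by_contra hn
  exact sign_ne hn h

private theorem sign_mul (i j : ℕ) : (((-((-1) ^ i * (-1) ^ j) : ℤ)) : ℂ) = (-1) ^ (i + j + 1) := by
  push_cast
  ring

private theorem sign_eq' {i j : ℕ} (h : i % 2 = j % 2) : (-1 : ℤ) ^ i = (-1) ^ j := by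
  rcases Nat.even_or_odd i with a1 | a1 <;> rcases Nat.even_or_odd j with a2 | a2
  · rw [a1.neg_one_pow, a2.neg_one_pow]
  · rw [Nat.even_iff] at a1
    rw [Nat.odd_iff] at a2
    omega
  · rw [Nat.odd_iff] at a1
    rw [Nat.even_iff] at a2
    omega
  · rw [a1.neg_one_pow, a2.neg_one_pow]

private theorem mul_pow_mono {C C' x : ℝ} {k k' : ℕ} (hC : 1 ≤ C) (hCC : C ≤ C') (hk : k ≤ k')
    (hx : 1 ≤ x) : C * x ^ k ≤ C' * x ^ k' :=
  mul_le_mul hCC (pow_le_pow_right₀ hx hk) (by positivity) (by linarith)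

private theorem le_mul_pow {C x : ℝ} {k : ℕ} (hC : 1 ≤ C) (hx : 1 ≤ x) : C ≤ C * x ^ k :=
  le_mul_of_one_le_right (by linarith) (one_le_pow₀ hx)

/-- from large `N` to all `N` -/
private theorem all_N {C : ℝ} (hC : 1 ≤ C) {k N0 N i j : ℕ} {J K : ℝ}
    (hJ : (C + N0 + 3) * ((N : ℝ) / N.totient) ^ k ≤ J)
    (hK : (C + N0 + 3) * Real.log N ^ k ≤ K)
    (h : N0 ≤ N → 3 ≤ N → C * ((N : ℝ) / N.totient) ^ k ≤ J →
      C * Real.log N ^ k ≤ K →
      ∃ T ⊆ pat N ((-1) ^ i) ((-1) ^ j), (N : ℝ) ≤ J * (T.card : ℝ) ∧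
        ∀ a ∈ T, Fine N K a ∧ ∀ v : ℕ, (v ^ 2 ∣ a ∨ v ^ 2 ∣ N - a) → (v : ℝ) ≤ J) :
    Many N i j (Real.exp (2 * Real.log K ^ 2)) K J := by
  have hn : (0 : ℝ) ≤ N0 := Nat.cast_nonneg _
  have hJC : 3 ≤ N → C + N0 + 3 ≤ J := fun h3 =>
    le_trans (le_mul_pow (by linarith) (rt_ge (by omega))) hJ
  have hKC : 3 ≤ N → C + N0 + 3 ≤ K := fun h3 =>
    le_trans (le_mul_pow (by linarith) (log_ge h3)) hK
  refine many (N0 := N0) (fun h3 => ?_) (fun h3 hlt => ?_) (fun h3 hge _ => ?_)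
  · have := hJC h3
    linarith
  · have h4 := hKC h3
    have h4' := hJC h3
    have h5 : (N : ℝ) ≤ N0 := by exact_mod_cast hlt.le
    have h6 : (3 : ℝ) ≤ K := by linarith
    exact ⟨by linarith, le_trans (by linarith) (le_G h6), by linarith⟩
  · have h4 := hKC h3
    have hx' := log_ge h3
    obtain ⟨T, hT, e1, e2⟩ := h hge h3
      (le_trans (mul_le_mul_of_nonneg_right (by linarith) (by positivity)) hJ)
      (le_trans (mul_le_mul_of_nonneg_right (by linarith) (by positivity)) hK)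
    refine ⟨T, hT, e1, fun a ha =>
      ⟨(e2 a ha).1, (e2 a ha).2, (e2 a ha).1.gcd_le (pat_bd a (hT ha)).1 ?_⟩⟩
    linarith

/-- lower bounds if `L(1,χ)` is not small -/
private theorem core_a (hO : OmB) : ∃ C : ℝ, 1 ≤ C ∧ ∃ k : ℕ, ∀ (N M i j : ℕ) [NeZero M],
    (i % 2 = j % 2 → N = 2 * M) → (i % 2 ≠ j % 2 → N = M) →
    (∀ χ : DirichletCharacter ℂ M, χ ^ 2 = 1 → χ ≠ 1 → χ (-1) = (-1) ^ (i + j + 1) →
      C * (M / M.totient) / Real.log M ≤ ‖DirichletCharacter.LFunction χ 1‖) →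
    ∀ J K : ℝ, C * ((N : ℝ) / N.totient) ^ k ≤ J → C * Real.log N ^ k ≤ K →
      Many N i j (Real.exp (2 * Real.log K ^ 2)) K J := by
  obtain ⟨C1, hC1, k1, N1, h1⟩ := stage4a hO
  have hn1 : (0 : ℝ) ≤ N1 := Nat.cast_nonneg _
  refine ⟨C1 + N1 + 3, by linarith, k1, fun N M i j _ hs1 hs2 hr J K hJ hK => ?_⟩
  refine all_N hC1 hJ hK fun hge h3 hJ1 hK1 => ?_
  refine h1 N M hge ((-1) ^ i) ((-1) ^ j) (sign i) (sign j) (fun h => hs1 (sign_eq h))
    (fun h => hs2 (fun h' => h (sign_eq' h'))) (fun χ a1 a2 a3 => ?_) J K hJ1 hK1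
  refine le_trans ?_ (hr χ a1 a2 (by rw [a3, sign_mul]))
  have hl : 0 ≤ Real.log M := Real.log_natCast_nonneg M
  refine div_le_div_of_nonneg_right ?_ hl
  exact mul_le_mul_of_nonneg_right (by linarith) (by positivity)

/-- the main part of (1) -/
private theorem core_b (hO : OmB) : ∃ C : ℝ, 1 ≤ C ∧ ∃ k : ℕ, ∃ κ : ℝ, 0 < κ ∧
    ∃ (q : ℕ → ℕ) (e : ℕ → ℤ), (∀ X, e X = 1 ∨ e X = -1) ∧
    (∀ A : ℕ, ∃ c : ℝ, 0 < c ∧ ∀ X : ℕ, 3 ≤ X → c * Real.log X ^ A ≤ q X) ∧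
    ∀ X N M i j : ℕ, (i % 2 = j % 2 → N = 2 * M) → (i % 2 ≠ j % 2 → N = M) → N ≤ X →
      (X : ℝ) ≤ (N : ℝ) ^ (1 + κ) → (q X ∣ M → (-1) ^ (i + j) ≠ e X) →
      ∀ J K : ℝ, C * ((N : ℝ) / N.totient) ^ k ≤ J → C * Real.log N ^ k ≤ K →
        Many N i j (Real.exp (2 * Real.log K ^ 2)) K J := by
  obtain ⟨C1, hC1, k1, N1, κ, hκ, q, σ, hσ, hq, h1⟩ := stage4b hO
  have hn1 : (0 : ℝ) ≤ N1 := Nat.cast_nonneg _
  refine ⟨C1 + N1 + 3, by linarith, k1, κ, hκ, q, fun X => -σ X, fun X => ?_, hq,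
    fun X N M i j hs1 hs2 hNX hXN hqM J K hJ hK => ?_⟩
  · rcases hσ X with h | h
    · exact Or.inr (by show -σ X = -1; rw [h])
    · exact Or.inl (by show -σ X = 1; rw [h]; norm_num)
  · refine all_N hC1 hJ hK fun hge h3 hJ1 hK1 => ?_
    refine h1 X N M hge hNX hXN ((-1) ^ i) ((-1) ^ j) (sign i) (sign j) (fun h => hs1 (sign_eq h))
      (fun h => hs2 (fun h' => h (sign_eq' h'))) (fun hd h4 => hqM hd ?_) J K hJ1 hK1
    rw [pow_add]
    linarith

/-- the modulus -/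
private theorem modulus {N i j : ℕ} (hN : 3 ≤ N) (h : Even N ∨ i % 2 ≠ j % 2) :
    ∃ M : ℕ, 1 ≤ M ∧ M ∣ N ∧ (i % 2 = j % 2 → N = 2 * M) ∧ (i % 2 ≠ j % 2 → N = M) := by
  by_cases hij : i % 2 = j % 2
  · obtain ⟨M, hM⟩ := h.resolve_right (fun h => h hij)
    exact ⟨M, by omega, ⟨2, by omega⟩, fun _ => by omega, fun h => absurd hij h⟩
  · exact ⟨N, by omega, dvd_rfl, fun h => absurd h hij, fun _ => rfl⟩

/-- the cases of `Many` -/
private theorem many_of {N i j : ℕ} {G K J : ℝ}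
    (h : 3 ≤ N → (Even N ∨ i % 2 ≠ j % 2) → Many N i j G K J) : Many N i j G K J := by
  intro hc
  rcases hc with ⟨h4, he, hi, hj⟩ | ⟨h8, he, h10⟩ | ⟨h3, h5, h10, hij⟩
  · exact h (by omega) (Or.inl he) (Or.inl ⟨h4, he, hi, hj⟩)
  · exact h (by omega) (Or.inl he) (Or.inr (Or.inl ⟨h8, he, h10⟩))
  · exact h h3 (Or.inr hij) (Or.inr (Or.inr ⟨h3, h5, h10, hij⟩))

private theorem log_le_two {N M : ℕ} (hN : 3 ≤ N) (h : N = M ∨ N = 2 * M) :
    Real.log N ≤ 2 * Real.log M := by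
  rcases h with h | h
  · rw [← h]
    have := log_ge hN
    linarith
  · have g2 : N ≤ M ^ 2 := by nlinarith
    have g3 : Real.log N ≤ Real.log ((M : ℝ) ^ 2) :=
      Real.log_le_log (by exact_mod_cast (by omega : 0 < N)) (by exact_mod_cast g2)
    rw [Real.log_pow] at g3
    exact_mod_cast g3

/-- the common part -/
private theorem core5 (hA1 : Analytic) (hO : OmB) : ∃ C : ℝ, 1 ≤ C ∧ ∃ k : ℕ, ∀ (N M i j : ℕ) [NeZero M],
    3 ≤ N → (i % 2 = j % 2 → N = 2 * M) → (i % 2 ≠ j % 2 → N = M) → ∀ r : ℝ, 0 < r → r ≤ 1 →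
    (∀ χ : DirichletCharacter ℂ M, χ ^ 2 = 1 → χ ≠ 1 → χ (-1) = (-1) ^ (i + j + 1) →
      r ≤ ‖DirichletCharacter.LFunction χ 1‖) →
    ∀ J K : ℝ, C * ((N : ℝ) / N.totient / r) ^ k ≤ J → C * (Real.log N / r) ^ k ≤ K →
      Many N i j (Real.exp (2 * Real.log K ^ 2)) K J := by
  obtain ⟨C1, hC1, k1, N1, h1⟩ := large3p hA1 Pool.Agent.H78.PH.analytic2_std_par
    (fun m N _ _ h χ h2 h1 => Pool.Agent.H78.PH.lift_par m N h χ h2 h1) hO
  obtain ⟨C3, hC3, k3, h3⟩ := core_a hO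
  have hn1 : (0 : ℝ) ≤ N1 := Nat.cast_nonneg _
  have hD1 : 1 ≤ (2 * C3) ^ k1 := one_le_pow₀ (by linarith)
  have hCD : C1 ≤ C1 * (2 * C3) ^ k1 := le_mul_of_one_le_right (by linarith) hD1
  refine ⟨C1 * (2 * C3) ^ k1 + C3 + N1 + 3, by linarith, 2 * k1 + k3,
    fun N M i j _ hN3 hs1 hs2 r hr0 hr1 hr J K hJ hK => ?_⟩
  have hN0 : N ≠ 0 := by omega
  have hlog := log_ge hN3
  have hrt : 1 ≤ rt N := rt_ge hN0
  have hx : 1 ≤ Real.log N / r := by
    rw [le_div_iff₀ hr0]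
    linarith
  have hy : 1 ≤ rt N / r := by
    rw [le_div_iff₀ hr0]
    linarith
  have hJ' : (C1 * (2 * C3) ^ k1 + C3 + N1 + 3) * (rt N / r) ^ (2 * k1 + k3) ≤ J := hJ
  rcases le_or_gt (r * Real.log N) (2 * C3 * rt N) with hcase | hcase
  · -- `r` is small
    obtain ⟨K1, hK1⟩ : ∃ K1 : ℝ, K1 = C1 * (Real.log N / r) ^ k1 := ⟨_, rfl⟩
    have e1 : K1 ≤ J := by
      refine le_trans ?_ hJ'
      have e3 : Real.log N / r ≤ 2 * C3 * (rt N / r) ^ 2 := by
        rw [div_pow, ← mul_div_assoc, div_le_div_iff₀ hr0 (by positivity)]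
        have e4 : r * Real.log N * r ≤ 2 * C3 * rt N * r := mul_le_mul_of_nonneg_right hcase hr0.le
        have e5 : 2 * C3 * rt N * r ≤ 2 * C3 * rt N ^ 2 * r := by
          refine mul_le_mul_of_nonneg_right ?_ hr0.le
          refine mul_le_mul_of_nonneg_left ?_ (by linarith)
          nlinarith
        nlinarith
      calc K1 ≤ C1 * (2 * C3 * (rt N / r) ^ 2) ^ k1 := by
            rw [hK1]
            refine mul_le_mul_of_nonneg_left (pow_le_pow_left₀ (by linarith) e3 _) (by linarith)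
        _ = C1 * (2 * C3) ^ k1 * (rt N / r) ^ (2 * k1) := by
            rw [mul_pow, ← pow_mul, mul_assoc]
        _ ≤ _ := mul_pow_mono (by linarith) (by linarith) (by omega) hy
    have e2 : K1 ≤ K := by
      refine le_trans ?_ hK
      rw [hK1]
      exact mul_pow_mono hC1 (by linarith) (by omega) hx
    have hCJ : C1 * (2 * C3) ^ k1 + C3 + N1 + 3 ≤ J := le_trans (le_mul_pow (by linarith) hy) hJ'
    have hCK : C1 * (2 * C3) ^ k1 + C3 + N1 + 3 ≤ K := le_trans (le_mul_pow (by linarith) hx) hK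
    refine many (N0 := N1) (fun _ => by linarith) (fun _ hlt => ?_) (fun _ hge _ => ?_)
    · have h5 : (N : ℝ) ≤ N1 := by exact_mod_cast hlt.le
      exact ⟨by linarith, le_trans (by linarith) (le_G (by linarith : (3 : ℝ) ≤ K)), by linarith⟩
    · obtain ⟨T, hT, e3, e4⟩ := h1 N M hge r hr0 hr1 K1 hK1.ge ((-1) ^ i) ((-1) ^ j) (sign i)
        (sign j) (fun h => hs1 (sign_eq h)) (fun h => hs2 (fun h' => h (sign_eq' h')))
        (fun χ a1 a2 a3 => hr χ a1 a2 (by rw [a3, sign_mul]))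
      refine ⟨T, hT, e3.trans (mul_le_mul_of_nonneg_right e1 (Nat.cast_nonneg _)), fun a ha => ?_⟩
      have hf := (e4 a ha).mono e2
      exact ⟨hf, fun v hv => ((e4 a ha).sq v hv).trans e1,
        hf.gcd_le (pat_bd a (hT ha)).1 (by linarith)⟩
  · -- `r` is large
    have hNM : N = M ∨ N = 2 * M := by
      by_cases hij : i % 2 = j % 2
      · exact Or.inr (hs1 hij)
      · exact Or.inl (hs2 hij)
    have hMN : M ∣ N := by
      rcases hNM with h | h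
      · rw [h]
      · rw [h]
        exact Dvd.intro_left 2 rfl
    refine h3 N M i j hs1 hs2 (fun χ h7 h8 h9 => ?_) J K ?_ ?_
    · refine le_trans ?_ (hr χ h7 h8 h9)
      have f5 : (M : ℝ) / M.totient ≤ rt N := rt_mono hN0 hMN
      have f6 := log_le_two hN3 hNM
      have f7 : 0 < Real.log M := by linarith
      rw [div_le_iff₀ f7]
      have f8 : C3 * ((M : ℝ) / M.totient) ≤ C3 * rt N := mul_le_mul_of_nonneg_left f5 (by linarith)
      have f9 : r * Real.log N ≤ r * (2 * Real.log M) := mul_le_mul_of_nonneg_left f6 hr0.le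
      linarith
    · refine le_trans ?_ hJ'
      calc C3 * ((N : ℝ) / N.totient) ^ k3 ≤ C3 * (rt N / r) ^ k3 := by
            refine mul_le_mul_of_nonneg_left (pow_le_pow_left₀ ?_ ?_ _) (by linarith)
            · exact (by linarith : (0 : ℝ) ≤ rt N)
            · exact le_div_self (by linarith : (0 : ℝ) ≤ rt N) hr0 hr1
        _ ≤ _ := mul_pow_mono hC3 (by linarith) (by omega) hy
    · refine le_trans ?_ hK
      calc C3 * Real.log N ^ k3 ≤ C3 * (Real.log N / r) ^ k3 := by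
            refine mul_le_mul_of_nonneg_left (pow_le_pow_left₀ (by linarith) ?_ _) (by linarith)
            exact le_div_self (by linarith) hr0 hr1
        _ ≤ _ := mul_pow_mono hC3 (by linarith) (by omega) hx

/-- the elementary direction -/
private theorem rare {N q i j : ℕ} (hN : 1 ≤ N) (hq : q ∣ N) (χ : DirichletCharacter ℂ q)
    (hχ : χ (-1) = (-1) ^ (i + j + 1)) : ((pairs N i j).ncard : ℝ) ≤ 2 * D N χ * N := by
  have h1 : pairs N i j = (pat N ((-1) ^ i) ((-1) ^ j) : Set ℕ) := by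
    ext a
    unfold pairs pat
    rw [Finset.mem_coe, Finset.mem_filter, Finset.mem_range, lam_iff, lam_iff]
    exact ⟨fun h => ⟨h.2.1, h.1, h.2.2.1, h.2.2.2⟩, fun h => ⟨h.2.1, h.1, h.2.2.1, h.2.2.2⟩⟩
  have h2 := Pool.Agent.H78.PE.conv N hN ((-1) ^ i) ((-1) ^ j) (sign i) (sign j) q hq χ
    (by rw [hχ, sign_mul])
  rw [h1, Set.ncard_coe_finset]
  refine h2.trans (le_of_eq ?_)
  unfold D Pool.Agent.H78.PE.Dd
  ring

/-- the converse -/
private theorem core_c (hO : OmB) : ∃ k : ℕ, ∀ ε : ℝ, 0 < ε → ∃ C : ℝ, 1 ≤ C ∧ ∀ N i j : ℕ,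
    (∀ (q : ℕ) (χ : DirichletCharacter ℂ q), q ∣ N → χ ^ 2 = 1 → χ (-1) = (-1) ^ (i + j + 1) →
      ε ≤ D N χ) →
    ∀ J K : ℝ, C * ((N : ℝ) / N.totient) ^ k ≤ J → C * Real.log N ^ k ≤ K →
      Many N i j (Real.exp (2 * Real.log K ^ 2)) K J := by
  obtain ⟨k, h0⟩ := Pool.Agent.H78.PE.crit_fine hO
  refine ⟨k, fun ε hε => ?_⟩
  obtain ⟨C1, hC1, N1, h1⟩ := h0 ε hε
  have hn1 : (0 : ℝ) ≤ N1 := Nat.cast_nonneg _
  refine ⟨C1 + N1 + 3, by linarith, fun N i j hr J K hJ hK => ?_⟩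
  refine many_of fun h3 hij => ?_
  obtain ⟨M, hM1, hMN, hM2, hM3⟩ := modulus h3 hij
  refine all_N hC1 hJ hK fun hge _ hJ1 hK1 => ?_
  refine h1 N M hge ((-1) ^ i) ((-1) ^ j) (sign i) (sign j) (fun h => hM2 (sign_eq h))
    (fun h => hM3 (fun h' => h (sign_eq' h'))) (fun q hq χ a1 a2 => ?_) J K hJ1 hK1
  exact hr q χ hq a1 (by rw [a2, sign_mul])

/-- a real character mod `M` is `1` at `-1` if `-1` is a square mod `M` -/
private theorem neg_one {M b : ℕ} [NeZero M] (hb : M ∣ b ^ 2 + 1) (χ : DirichletCharacter ℂ M)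
    (h : χ ^ 2 = 1) : χ (-1) = 1 := by
  have h1 : ((b : ZMod M)) ^ 2 = -1 := by
    have h2 : ((b ^ 2 + 1 : ℕ) : ZMod M) = 0 := (ZMod.natCast_eq_zero_iff _ _).mpr hb
    push_cast at h2
    exact eq_neg_of_add_eq_zero_left h2
  have hu : IsUnit (b : ZMod M) := by
    have h3 : IsUnit ((b : ZMod M) ^ 2) := by
      rw [h1]
      exact isUnit_one.neg
    exact (isUnit_pow_iff two_ne_zero).mp h3
  rw [← h1, map_pow, ← MulChar.pow_apply' _ two_ne_zero, h, MulChar.one_apply hu]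

/-- **Theorem.** (A) If `q ∣ N` and `χ` is a character mod `q` with `χ (-1) = (-1) ^ (i + j + 1)`, then at most
`2 D(N, χ) N` integers `a` with `0 < a < N` have `Ω a ≡ i` and `Ω (N - a) ≡ j` mod 2.
(B) Conversely there is `k` such that for every `ε > 0` there is `C > 0` with: if `D(N, χ) ≥ ε` for all real
characters `χ` with `χ (-1) = (-1) ^ (i + j + 1)` of all moduli `q ∣ N` then `Many N i j G K J` (at least `N / J`
representations of `N`) holds with `J = C (N / φ(N)) ^ k`, `K = C (log N) ^ k` and `G = exp (2 (log K) ^ 2)`.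
Moreover there are `C, κ > 0` such that for all `N`, `i`, `j` the estimate `Many N i j G K J` holds in the
following cases.
In (1), (2): `J = C (N / φ(N)) ^ k`, `K = C (log N) ^ k` and `G = exp (2 (log K) ^ 2)`.
(1) `N ≤ X ≤ N ^ (1 + κ)`, and `(-1) ^ (i + j) ≠ e X` if `N` is a multiple of `q X`; here `q` and `e` are functions
of `X` with `e X = ± 1`, and `q X` is at least `c (log X) ^ A` for every `A`, where `c > 0` depends on `A`.
(2) `i ≡ j` mod 2 and `N ∣ 2 (b ^ 2 + 1)` for an integer `b`, or `i ≢ j` mod 2 and `N = p ^ n` or `N = 2 p ^ n` with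
a prime `p ≡ 3` mod 4.
(3) `J = C (N / (φ(N) r)) ^ k`, `K = C (log N / r) ^ k` and `G = exp (2 (log K) ^ 2)` where `0 < r ≤ 1` and
`r ≤ |L(1, χ)|` for all real nonprincipal characters `χ` mod `M` with `χ (-1) = (-1) ^ (i + j + 1)`, where `M = N / 2`
if `i ≡ j` mod 2 and `M = N` if not.
(4) For every `ε > 0`: `J = K = G = C' N ^ ε`, where `C' > 0` depends on `ε` only. -/
theorem result :
    (∀ (N q i j : ℕ) (χ : DirichletCharacter ℂ q), 1 ≤ N → q ∣ N → χ (-1) = (-1) ^ (i + j + 1) →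
      ((pairs N i j).ncard : ℝ) ≤ 2 * D N χ * N) ∧
    (∃ k : ℕ,
      (∀ ε : ℝ, 0 < ε → ∃ C : ℝ, 0 < C ∧ ∀ N i j : ℕ,
        (∀ (q : ℕ) (χ : DirichletCharacter ℂ q), q ∣ N → χ ^ 2 = 1 →
          χ (-1) = (-1) ^ (i + j + 1) → ε ≤ D N χ) →
        ∀ J K : ℝ, J = C * ((N : ℝ) / N.totient) ^ k → K = C * Real.log N ^ k →
          Many N i j (Real.exp (2 * Real.log K ^ 2)) K J) ∧
      ∃ C : ℝ, 0 < C ∧
      (∃ (κ : ℝ) (q : ℕ → ℕ) (e : ℕ → ℤ), 0 < κ ∧ (∀ X, e X = 1 ∨ e X = -1) ∧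
        (∀ A : ℕ, ∃ c : ℝ, 0 < c ∧ ∀ X : ℕ, 3 ≤ X → c * Real.log X ^ A ≤ q X) ∧
        ∀ X N i j : ℕ, N ≤ X → (X : ℝ) ≤ (N : ℝ) ^ (1 + κ) → (q X ∣ N → (-1) ^ (i + j) ≠ e X) →
          ∀ J K : ℝ, J = C * ((N : ℝ) / N.totient) ^ k → K = C * Real.log N ^ k →
            Many N i j (Real.exp (2 * Real.log K ^ 2)) K J) ∧
      (∀ N i j : ℕ, ((i % 2 = j % 2 ∧ ∃ b : ℕ, N ∣ 2 * (b ^ 2 + 1)) ∨
          (i % 2 ≠ j % 2 ∧ ∃ p n : ℕ, p.Prime ∧ p % 4 = 3 ∧ (N = p ^ n ∨ N = 2 * p ^ n))) →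
        ∀ J K : ℝ, J = C * ((N : ℝ) / N.totient) ^ k → K = C * Real.log N ^ k →
          Many N i j (Real.exp (2 * Real.log K ^ 2)) K J) ∧
      (∀ (N M i j : ℕ) [NeZero M], (i % 2 = j % 2 → N = 2 * M) → (i % 2 ≠ j % 2 → N = M) →
        ∀ r : ℝ, 0 < r → r ≤ 1 →
        (∀ χ : DirichletCharacter ℂ M, χ ^ 2 = 1 → χ ≠ 1 → χ (-1) = (-1) ^ (i + j + 1) →
          r ≤ ‖DirichletCharacter.LFunction χ 1‖) →
        ∀ J K : ℝ, J = C * ((N : ℝ) / N.totient / r) ^ k → K = C * (Real.log N / r) ^ k →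
          Many N i j (Real.exp (2 * Real.log K ^ 2)) K J)) ∧
    ∀ ε : ℝ, 0 < ε → ∃ C : ℝ, 0 < C ∧
      ∀ N i j : ℕ, Many N i j (C * (N : ℝ) ^ ε) (C * (N : ℝ) ^ ε) (C * (N : ℝ) ^ ε) := by
  have hA1 : Analytic := fun δ hδ => Pool.Agent.H78.PG.analytic δ hδ
  have hO : OmB := by
    obtain ⟨A, _, h⟩ := Pool.Agent.H78.PH.omB
    exact ⟨A, fun N hN K hK => h N (by omega) K hK⟩
  refine ⟨fun N q i j χ hN hq hχ => rare hN hq χ hχ, ?_, fun ε hε => ?_⟩
  · obtain ⟨k5, h5⟩ := core_c hO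
    obtain ⟨C1, hC1, k1, h1⟩ := core5 hA1 hO
    obtain ⟨C3, hC3, k3, h3a⟩ := core_a hO
    obtain ⟨C4, hC4, k4, κ, hκ, q4, e4, he4, hq4, h4b⟩ := core_b hO
    obtain ⟨C, hC⟩ : ∃ C : ℝ, C = C1 + C3 + C4 := ⟨_, rfl⟩
    obtain ⟨k, hk⟩ : ∃ k : ℕ, k = k1 + k3 + k4 + k5 := ⟨_, rfl⟩
    refine ⟨k, fun ε hε => ?_, C, by linarith, ⟨κ, q4, e4, hκ, he4, hq4, ?_⟩, ?_, ?_⟩
    · obtain ⟨C5, hC5, h6⟩ := h5 ε hε
      refine ⟨C5, by linarith, fun N i j hr J K hJ hK => ?_⟩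
      refine many_of fun h3 _ => h6 N i j hr J K ?_ ?_
      · rw [hJ]
        exact mul_pow_mono hC5 le_rfl (by omega) (rt_ge (by omega))
      · rw [hK]
        exact mul_pow_mono hC5 le_rfl (by omega) (log_ge h3)
    · intro X N i j hNX hXN hqN J K hJ hK
      refine many_of fun h3 hij => ?_
      obtain ⟨M, hM1, hMN, hM2, hM3⟩ := modulus h3 hij
      refine h4b X N M i j hM2 hM3 hNX hXN (fun hd => hqN (hd.trans hMN)) J K ?_ ?_
      · rw [hJ]
        exact mul_pow_mono hC4 (by linarith) (by omega) (rt_ge (by omega))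
      · rw [hK]
        exact mul_pow_mono hC4 (by linarith) (by omega) (log_ge h3)
    · intro N i j hcase J K hJ hK
      refine many_of fun h3 he => ?_
      obtain ⟨M, hM1, hMN, hM2, hM3⟩ := modulus h3 he
      have : NeZero M := ⟨by omega⟩
      refine h3a N M i j hM2 hM3 (fun χ h7 h8 h9 => ?_) J K ?_ ?_
      · exfalso
        rcases hcase with ⟨hij, b, hb⟩ | ⟨hij, p, n, hp, hp3, hN⟩
        · have hMb : M ∣ b ^ 2 + 1 := by
            rw [hM2 hij] at hb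
            exact Nat.dvd_of_mul_dvd_mul_left two_pos hb
          rw [neg_one hMb χ h7] at h9
          have h10 : Odd (i + j + 1) := by
            rw [Nat.odd_iff]
            omega
          rw [h10.neg_one_pow] at h9
          norm_num at h9
        · rw [hM3 hij] at hN
          rw [Pool.Agent.H78.PD.odd_of_three hp hp3 hN χ h7 h8] at h9
          have h10 : Even (i + j + 1) := by
            rw [Nat.even_iff]
            omega
          rw [h10.neg_one_pow] at h9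
          norm_num at h9
      · rw [hJ]
        exact mul_pow_mono hC3 (by linarith) (by omega) (rt_ge (by omega))
      · rw [hK]
        exact mul_pow_mono hC3 (by linarith) (by omega) (log_ge h3)
    · intro N M i j _ hM2 hM3 r hr0 hr1 hr J K hJ hK
      refine many_of fun h3 _ => h1 N M i j h3 hM2 hM3 r hr0 hr1 hr J K ?_ ?_
      · have hx : 1 ≤ (N : ℝ) / N.totient / r := by
          have h4 : (1 : ℝ) ≤ (N : ℝ) / N.totient := rt_ge (by omega)
          rw [le_div_iff₀ hr0]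
          linarith
        rw [hJ]
        exact mul_pow_mono hC1 (by linarith) (by omega) hx
      · have hx : 1 ≤ Real.log N / r := by
          have := log_ge h3
          rw [le_div_iff₀ hr0]
          linarith
        rw [hK]
        exact mul_pow_mono hC1 (by linarith) (by omega) hx
  · obtain ⟨N0, h0⟩ := large3e hA1 hO ε hε
    have hn0 : (0 : ℝ) ≤ N0 := Nat.cast_nonneg _
    refine ⟨(N0 : ℝ) + 1, by linarith, fun N i j => ?_⟩
    have hNε : 3 ≤ N → 1 ≤ (N : ℝ) ^ ε := fun h3 =>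
      Real.one_le_rpow (by exact_mod_cast (by omega : 1 ≤ N)) hε.le
    have hKC : 3 ≤ N → (N0 : ℝ) + 1 ≤ ((N0 : ℝ) + 1) * (N : ℝ) ^ ε := fun h3 =>
      le_mul_of_one_le_right (by linarith) (hNε h3)
    refine many (N0 := N0) (fun h3 => ?_) (fun h3 hlt => ?_) (fun h3 hge hst => ?_)
    · have := hKC h3
      linarith
    · have h4 := hKC h3
      have h5 : (N : ℝ) ≤ N0 := by exact_mod_cast hlt.le
      exact ⟨by linarith, by linarith, by linarith⟩
    · obtain ⟨T, hT, e1, e2⟩ := h0 N hge (((N0 : ℝ) + 1) * (N : ℝ) ^ ε)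
        (le_mul_of_one_le_left (by linarith [hNε h3]) (by linarith)) _ _ (sign i) (sign j)
        (hst.imp id sign_ne)
      exact ⟨T, hT, e1, fun a ha => ⟨(e2 a ha).1, (e2 a ha).1.sq, (e2 a ha).2⟩⟩

end Pool.Agent.Results.MP_967f73_nt.ParityGoldbachLog
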