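import Pool.Agent.H43.PJ.M94

/-!
For almost every integer `n` there are `x`, `|x| ≤ n^(1/10)`, such that `n - x` is a prime and `n + x` is a prime times a prime
at most `exp((log n)^t)`, for every `t > 2/3`.
-/

set_option autoImplicit false

namespace Pool.Agent.Results.MP_967f73_nt.PrimePlusE2Window

/-- The integers `x` with `|x| ≤ N^θ`, `n - x` and `n + x` positive, `φ(n - x) + 1 = n - x` (so `n - x` is a prime) and
`n + x = p q` for primes `p`, `q` with `P < p ≤ 2 P`. -/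
def sols (θ : ℝ) (N P n : ℕ) : Set ℤ :=
  {x : ℤ | |(x : ℝ)| ≤ (N : ℝ) ^ θ ∧ 0 < (n : ℤ) - x ∧ 0 < (n : ℤ) + x ∧
    ((Nat.totient ((n : ℤ) - x).toNat : ℤ) + 1 = (n : ℤ) - x) ∧
    ∃ p q : ℕ, p.Prime ∧ q.Prime ∧ P < p ∧ p ≤ 2 * P ∧ (n : ℤ) + x = p * q}

/-- For all `1/10 ≤ θ ≤ 1/4`, `2/3 < t < 1` and all `A` there is `N₀` such that for all `N ≥ N₀` and all `P` with
`exp((log N)^t) ≤ P ≤ N^(θ/20)`: all but at most `N/(log N)^A` of the integers `n` in `(N, 2N]` have at least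
`N^θ/(30000 (log N)^2 log P)` integers `x`, `|x| ≤ N^θ`, such that `n - x` is a prime and `n + x = p q` with primes `p`, `q`,
`P < p ≤ 2 P`. -/
theorem result : ∀ θ t : ℝ, 1 / 10 ≤ θ → θ ≤ 1 / 4 → 2 / 3 < t → t < 1 → ∀ A : ℕ, ∃ N₀ : ℕ, ∀ N : ℕ, N₀ ≤ N →
    ∀ P : ℕ, Real.exp (Real.log N ^ t) ≤ P → (P : ℝ) ≤ (N : ℝ) ^ (θ / 20) →
    ({n : ℕ | N < n ∧ n ≤ 2 * N ∧
      ((sols θ N P n).ncard : ℝ) < (N : ℝ) ^ θ / (30000 * Real.log N ^ 2 * Real.log P)}.ncard : ℝ) ≤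
      N / Real.log N ^ A := by
  intro θ t h1 h2 h3 h4 A
  exact Pool.Agent.H43.PX.px_res2 θ h1 h2 t h3 h4 A

end Pool.Agent.Results.MP_967f73_nt.PrimePlusE2Window
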