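import Pool.Agent.H43.PJ.M87

/-!
Almost every integer `n` is the midpoint of two primes at distance at most `n^θ`, for every `θ ≥ 5/24`.
-/

set_option autoImplicit false

namespace Pool.Agent.Results.MP_967f73_nt.TwoPrimesWindow

/-- The integral solutions `x`, `|x| ≤ N^θ`, of the system `φ(n - x) + 1 = n - x`, `φ(n + x) + 1 = n + x`
(`n - x` and `n + x` positive). -/
def sols (θ : ℝ) (N n : ℕ) : Set ℤ :=
  {x : ℤ | |(x : ℝ)| ≤ (N : ℝ) ^ θ ∧ 0 < (n : ℤ) - x ∧ 0 < (n : ℤ) + x ∧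
    ((Nat.totient ((n : ℤ) - x).toNat : ℤ) + 1 = (n : ℤ) - x) ∧
    ((Nat.totient ((n : ℤ) + x).toNat : ℤ) + 1 = (n : ℤ) + x)}

/-- For all `5/24 ≤ θ < 1/3` and all `A` there is `N₀` with: for all `N ≥ N₀`, all but at most `N/(log N)^A` of the integers
`n` in `(N, 2N]` have at least `N^θ/(400 (log N)^2)` integral solutions `x`, `|x| ≤ N^θ`, of the system
`φ(n - x) + 1 = n - x`, `φ(n + x) + 1 = n + x`. -/
theorem result : ∀ θ : ℝ, 5 / 24 ≤ θ → θ < 1 / 3 → ∀ A : ℕ, ∃ N₀ : ℕ, ∀ N : ℕ, N₀ ≤ N →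
    ({n : ℕ | N < n ∧ n ≤ 2 * N ∧
      ((sols θ N n).ncard : ℝ) < (N : ℝ) ^ θ / (400 * Real.log N ^ 2)}.ncard : ℝ) ≤ N / Real.log N ^ A := by
  intro θ h1 h2 A
  obtain ⟨N₀, h⟩ := Pool.Agent.H46.TPQ.tpq24 θ h1 h2 A
  refine ⟨N₀, fun N hN => ?_⟩
  have e : (N : ℝ) ^ θ / (400 * Real.log N ^ 2) = 1 / 100 / 4 * (N : ℝ) ^ θ / Real.log N ^ 2 := by
    rw [show (400 : ℝ) * Real.log N ^ 2 = Real.log N ^ 2 * 400 by ring, ← div_div]
    ring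
  rw [e]
  exact h N hN

end Pool.Agent.Results.MP_967f73_nt.TwoPrimesWindow
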